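import Pool.Agent.helper23.DD.Main

set_option autoImplicit false

/-!
# An explicit bound for the sum over graphs of the products of even-triple fractions (MP_dd5ef2_co)
-/

namespace Pool.Agent.Results.MP_dd5ef2_co.ExplicitBound

open Classical in
/-- `φ_{i,j}(G)`: the fraction of the vertices `k` other than `i` and `j` for which the three pairs
among `i, j, k` contain an even number of edges of `G` -/
noncomputable def phi {n : ℕ} (G : SimpleGraph (Fin n)) (i j : Fin n) : ℝ :=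
  ((Finset.univ.filter (fun k : Fin n => k ≠ i ∧ k ≠ j ∧
    Even ((if G.Adj i j then 1 else 0) + (if G.Adj i k then 1 else 0)
      + (if G.Adj j k then 1 else 0) : ℕ))).card : ℝ) / ((n : ℝ) - 2)

/-- `S(n)`: the sum over all graphs `G` on `n` vertices of the product of `φ_{i,j}(G)` over the pairs
`i < j` -/
noncomputable def S (n : ℕ) : ℝ :=
  ∑ G : SimpleGraph (Fin n),
    ∏ p ∈ (Finset.univ : Finset (Fin n × Fin n)).filter (fun p => p.1 < p.2), phi G p.1 p.2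

theorem S_le : ∀ n : ℕ, 3 ≤ n → S n ≤ (2 : ℝ) ^ (8 * (n : ℝ) ^ ((9 : ℝ) / 5)) := by
  classical
  intro n hn
  have hS : S n = ∑ G : SimpleGraph (Fin n), ∏ i : Fin n, ∏ j : Fin n,
          (if i < j then
            (((Finset.univ.filter (fun k : Fin n => k ≠ i ∧ k ≠ j ∧
                Even ((if G.Adj i j then 1 else 0) + (if G.Adj i k then 1 else 0)
                  + (if G.Adj j k then 1 else 0) : ℕ))).card : ℝ) / ((n : ℝ) - 2))
          else 1) := by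
    refine Finset.sum_congr rfl fun G _ => ?_
    rw [Finset.prod_filter, Fintype.prod_prod_type]
    rfl
  have hn3 : (3 : ℝ) ≤ n := by exact_mod_cast hn
  have hn0 : (0 : ℝ) < n := by linarith
  have hn1 : (1 : ℝ) ≤ n := by linarith
  set m : ℕ := ⌈(n : ℝ) ^ ((4 : ℝ) / 5)⌉₊ with hm
  have hp0 : (0 : ℝ) < (n : ℝ) ^ ((4 : ℝ) / 5) := Real.rpow_pos_of_pos hn0 _
  have hm1 : 0 < m := Nat.ceil_pos.2 hp0
  have hmge : (n : ℝ) ^ ((4 : ℝ) / 5) ≤ m := Nat.le_ceil _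
  have hmle : (m : ℝ) ≤ (n : ℝ) ^ ((4 : ℝ) / 5) + 1 := (Nat.ceil_lt_add_one hp0.le).le
  have hp1 : (1 : ℝ) ≤ (n : ℝ) ^ ((4 : ℝ) / 5) := Real.one_le_rpow hn1 (by norm_num)
  set η : ℝ := (n : ℝ) ^ (-(1 : ℝ) / 5) with hη
  have hη0 : 0 < η := Real.rpow_pos_of_pos hn0 _
  have hθ0 : 0 < η ^ 2 := by positivity
  have hη4 : (n : ℝ) ^ ((4 : ℝ) / 5) * η ^ 4 = 1 := by
    rw [hη, ← Real.rpow_natCast, ← Real.rpow_mul hn0.le, ← Real.rpow_add hn0]
    norm_num
  have hn95 : (n : ℝ) ^ 2 * η = (n : ℝ) ^ ((9 : ℝ) / 5) := by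
    rw [hη, ← Real.rpow_natCast (n : ℝ) 2, ← Real.rpow_add hn0]
    norm_num
  have hn95' : (n : ℝ) ^ ((4 : ℝ) / 5) * n = (n : ℝ) ^ ((9 : ℝ) / 5) := by
    nth_rewrite 2 [← Real.rpow_one (n : ℝ)]
    rw [← Real.rpow_add hn0]
    norm_num
  set T : ℝ := (n : ℝ) ^ ((9 : ℝ) / 5) with hT
  have hT0 : 0 < T := Real.rpow_pos_of_pos hn0 _
  rw [hS]
  refine (Pool.Agent.helper23.DD.sum_le hn hm1 hη0 hθ0).trans ?_
  have hm0 : (0 : ℝ) < m := by exact_mod_cast hm1
  have e1 : (2 : ℝ) ^ (m * n) = Real.exp (m * n * Real.log 2) := by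
    rw [← Real.exp_log (show (0 : ℝ) < 2 ^ (m * n) by positivity), Real.log_pow]
    push_cast
    rfl
  have e2 : (1 + 2 * η) ^ (n ^ 2) ≤ Real.exp ((n : ℝ) ^ 2 * (2 * η)) := by
    have e3 := Real.add_one_le_exp (2 * η)
    calc (1 + 2 * η) ^ (n ^ 2) ≤ (Real.exp (2 * η)) ^ (n ^ 2) :=
          pow_le_pow_left₀ (by positivity) (by linarith) _
      _ = _ := by
          rw [← Real.exp_nat_mul]
          push_cast
          rfl
  have e5 : 1 / (m * η ^ 2) ≤ η ^ 2 := by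
    rw [div_le_iff₀ (by positivity)]
    calc (1 : ℝ) = (n : ℝ) ^ ((4 : ℝ) / 5) * η ^ 4 := hη4.symm
      _ ≤ m * η ^ 4 := by gcongr
      _ = η ^ 2 * (m * η ^ 2) := by ring
  have e6 : (n : ℝ) ^ 2 * (η ^ 2 + 1 / (m * η ^ 2)) / η ≤ 2 * T := by
    rw [div_le_iff₀ hη0]
    calc (n : ℝ) ^ 2 * (η ^ 2 + 1 / (m * η ^ 2)) ≤ (n : ℝ) ^ 2 * (η ^ 2 + η ^ 2) := by gcongr
      _ = 2 * ((n : ℝ) ^ 2 * η) * η := by ring
      _ = 2 * T * η := by rw [hn95]
  have e7 : (m : ℝ) * n ≤ 2 * T := by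
    calc (m : ℝ) * n ≤ ((n : ℝ) ^ ((4 : ℝ) / 5) + 1) * n := by gcongr
      _ ≤ ((n : ℝ) ^ ((4 : ℝ) / 5) + (n : ℝ) ^ ((4 : ℝ) / 5)) * n := by gcongr
      _ = 2 * ((n : ℝ) ^ ((4 : ℝ) / 5) * n) := by ring
      _ = 2 * T := by rw [hn95']
  have hl : (0.6931471803 : ℝ) < Real.log 2 := Real.log_two_gt_d9
  have e4 : (2 : ℝ) ^ (8 * T) = Real.exp (8 * T * Real.log 2) := by
    rw [Real.rpow_def_of_pos (by norm_num)]
    ring_nf
  calc Real.exp ((n : ℝ) ^ 2 * (η ^ 2 + 1 / (m * η ^ 2)) / η) *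
        ((2 : ℝ) ^ (m * n) * (1 + 2 * η) ^ (n ^ 2))
      ≤ Real.exp (2 * T) * (Real.exp (2 * T * Real.log 2) * Real.exp (2 * T)) := by
        rw [e1]
        have e8 : (n : ℝ) ^ 2 * (2 * η) = 2 * T := by rw [← hn95]; ring
        rw [e8] at e2
        have hl0 : 0 ≤ Real.log 2 := by linarith
        gcongr
    _ = Real.exp (2 * T + (2 * T * Real.log 2 + 2 * T)) := by
        rw [Real.exp_add, Real.exp_add]
    _ ≤ (2 : ℝ) ^ (8 * T) := by
        rw [e4]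
        refine Real.exp_le_exp.2 ?_
        nlinarith

theorem phi_nonneg {n : ℕ} (hn : 3 ≤ n) (G : SimpleGraph (Fin n)) (i j : Fin n) : 0 ≤ phi G i j := by
  have h : (3 : ℝ) ≤ n := by exact_mod_cast hn
  exact div_nonneg (Nat.cast_nonneg _) (by linarith)

theorem phi_bot {n : ℕ} (hn : 3 ≤ n) {i j : Fin n} (hij : i ≠ j) : phi (⊥ : SimpleGraph (Fin n)) i j = 1 := by
  classical
  have h : (3 : ℝ) ≤ n := by exact_mod_cast hn
  unfold phi
  have e : (Finset.univ.filter (fun k : Fin n => k ≠ i ∧ k ≠ j ∧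
    Even ((if (⊥ : SimpleGraph (Fin n)).Adj i j then 1 else 0) +
      (if (⊥ : SimpleGraph (Fin n)).Adj i k then 1 else 0)
      + (if (⊥ : SimpleGraph (Fin n)).Adj j k then 1 else 0) : ℕ))) =
      (Finset.univ \ {i, j} : Finset (Fin n)) := by
    ext k
    simp
  have c : (Finset.univ \ {i, j} : Finset (Fin n)).card = n - 2 := by
    rw [Finset.card_sdiff_of_subset (Finset.subset_univ _), Finset.card_univ, Fintype.card_fin,
      Finset.card_pair hij]
  have e' := congrArg Finset.card e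
  rw [c] at e'
  have e2 : ((n - 2 : ℕ) : ℝ) = (n : ℝ) - 2 := by
    rw [Nat.cast_sub (by omega)]
    norm_num
  rw [div_eq_one_iff_eq (by linarith), ← e2]
  refine congrArg (Nat.cast : ℕ → ℝ) ?_
  convert e'

theorem one_le_S {n : ℕ} (hn : 3 ≤ n) : 1 ≤ S n := by
  classical
  unfold S
  have h1 : ∏ p ∈ (Finset.univ : Finset (Fin n × Fin n)).filter (fun p => p.1 < p.2),
      phi (⊥ : SimpleGraph (Fin n)) p.1 p.2 = 1 := by
    refine Finset.prod_eq_one fun p hp => ?_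
    rw [Finset.mem_filter] at hp
    exact phi_bot hn hp.2.ne
  rw [← h1]
  exact Finset.single_le_sum (f := fun G : SimpleGraph (Fin n) =>
    ∏ p ∈ (Finset.univ : Finset (Fin n × Fin n)).filter (fun p => p.1 < p.2), phi G p.1 p.2)
    (fun G _ => Finset.prod_nonneg fun p _ => phi_nonneg hn G p.1 p.2) (Finset.mem_univ ⊥)

/-- For every `n ≥ 3` the sum `S(n)` is at most `2 ^ (8 n ^ (9 / 5))`, and `log₂ S(n) / n ^ 2` tends to
zero. -/
theorem result : (∀ n : ℕ, 3 ≤ n → S n ≤ (2 : ℝ) ^ (8 * (n : ℝ) ^ ((9 : ℝ) / 5))) ∧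
    Filter.Tendsto (fun n : ℕ => Real.logb 2 (S n) / (n : ℝ) ^ 2) Filter.atTop (nhds 0) := by
  refine ⟨S_le, ?_⟩
  have h0 : Filter.Tendsto (fun n : ℕ => 8 * (n : ℝ) ^ (-((1 : ℝ) / 5))) Filter.atTop (nhds 0) := by
    have h1 := (tendsto_rpow_neg_atTop (show (0 : ℝ) < 1 / 5 by norm_num)).comp
      (tendsto_natCast_atTop_atTop (R := ℝ))
    simpa using h1.const_mul 8
  refine tendsto_of_tendsto_of_tendsto_of_le_of_le' tendsto_const_nhds h0 ?_ ?_
  · filter_upwards [Filter.eventually_ge_atTop 3] with n hn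
    exact div_nonneg (Real.logb_nonneg (by norm_num) (one_le_S hn)) (by positivity)
  · filter_upwards [Filter.eventually_ge_atTop 3] with n hn
    have hn3 : (3 : ℝ) ≤ n := by exact_mod_cast hn
    have hn0 : (0 : ℝ) < n := by linarith
    rw [div_le_iff₀ (by positivity)]
    have h2 : Real.logb 2 (S n) ≤ 8 * (n : ℝ) ^ ((9 : ℝ) / 5) := by
      have h3 := Real.logb_le_logb_of_le (b := 2) (by norm_num)
        (lt_of_lt_of_le one_pos (one_le_S hn)) (S_le n hn)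
      rwa [Real.logb_rpow (by norm_num) (by norm_num)] at h3
    refine h2.trans (le_of_eq ?_)
    rw [← Real.rpow_natCast (n : ℝ) 2, mul_assoc, ← Real.rpow_add hn0]
    norm_num

end Pool.Agent.Results.MP_dd5ef2_co.ExplicitBound
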